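import Pool.Agent.L0h86.GQ.Stm

/-!
# Project GQ (helper86), module VAN (helper85): the vanishing over `ℚ(i)`
-/

set_option autoImplicit false
set_option linter.unusedVariables false
set_option linter.unusedSectionVars false

namespace Pool.Agent.L0h85.GQ

open Pool.Agent.Y715.Nr (Au Inert)
open Pool.Agent.Y715.Gi (QB KK GK ev lam ev_ne gk_ev prime_lam)
open Pool.Agent.Y715.Sel (iota_sq iota_ev odd_of exists_emb2)
open Pool.Agent.Y715.Df (Cmp exists_cmp exists_emb)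
open Pool.Agent.R384
open Pool.Agent.L0h86.GQ

variable {i₀ : QB}

/-- reduction modulo four -/
noncomputable def ph4 : ℤ_[2]ˣ →* (ZMod (2 ^ 2))ˣ := Units.map (PadicInt.toZModPow 2).toMonoidHom

lemma ph4_one {u : ℤ_[2]ˣ} : ph4 u = 1 ↔ (4 : ℤ_[2]) ∣ (u : ℤ_[2]) - 1 := by
  rw [dvd_iff_ker, map_sub, map_one, sub_eq_zero, Units.ext_iff]
  rfl

/-- the properties of the characters -/
structure ChiG (χ : GK i₀ →* ℤ_[2]ˣ) (s : QB) : Prop where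
  cont : Continuous χ
  s0 : s ≠ 0
  or : ∀ σ : GK i₀, σ s = s ∨ σ s = -s
  small : ∀ σ : GK i₀, σ s = s → ‖vl χ σ - 1‖ < 1 / 2
  big : ∀ σ : GK i₀, σ s = -s → ‖vl χ σ - 1‖ = 1 / 2
  ipos : ∀ (p : ℕ) [Fact p.Prime] (ι : QB →ₐ[ℚ] PadicAlgCl p), p ≠ 2 →
    ∀ σ ∈ (II ι : Set (GK i₀)), σ s = s → vl χ σ = 1
  ineg : ∀ (p : ℕ) [Fact p.Prime] (ι : QB →ₐ[ℚ] PadicAlgCl p), p ≠ 2 →
    ∀ σ ∈ (II ι : Set (GK i₀)), σ s = -s → vl χ σ = -1

lemma chiG (hC : ∀ σ : GK i₀, (4 : ℤ_[2]) ∣ ((cyc i₀ σ : ℤ_[2]ˣ) : ℤ_[2]) - 1) {s : QB}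
    (hs0 : s ≠ 0) (hs : ∀ σ : GK i₀, σ s = s ∨ σ s = -s) (k : ℤ) :
    ChiG (cyc i₀ ^ k * sgc (es hs0 hs)) s := by
  have h4 : ∀ σ : GK i₀, ‖vl (cyc i₀ ^ k) σ - 1‖ ≤ 1 / 4 := by
    intro σ
    have h1 : ph4 ((cyc i₀ ^ k) σ) = 1 := by
      have e : (cyc i₀ ^ k) σ = (cyc i₀ σ) ^ k := rfl
      rw [e, map_zpow, ph4_one.2 (hC σ), one_zpow]
    have h2 := norm_of_four (ph4_one.1 h1)
    have e : ((((cyc i₀ ^ k) σ : ℤ_[2]ˣ) : ℤ_[2]) - 1 : ℤ_[2]) = vl (cyc i₀ ^ k) σ - 1 := by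
      unfold vl
      push_cast
      rfl
    rw [e] at h2
    exact h2
  have hin : ∀ (p : ℕ) [Fact p.Prime] (ι : QB →ₐ[ℚ] PadicAlgCl p), p ≠ 2 →
      ∀ σ ∈ (II ι : Set (GK i₀)), vl (cyc i₀ ^ k) σ = 1 := by
    intro p _ ι hp σ hσ
    have e : (cyc i₀ ^ k) σ = (cyc i₀ σ) ^ k := rfl
    unfold vl
    rw [e, cyc_inert hp hσ, one_zpow]
    simp
  refine ⟨?_, hs0, hs, ?_, ?_, ?_, ?_⟩
  · have h1 : Continuous fun σ : GK i₀ => (cyc i₀ σ) ^ k := (cyc_cont i₀).zpow k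
    exact h1.mul (cont_sgc (es_open hs0 hs))
  · intro σ h
    rw [vl_sgc_pos ((es_one hs0 hs).2 h)]
    have := h4 σ
    linarith
  · intro σ h
    refine le_antisymm (vl_sub_one (χ := cyc i₀ ^ k * sgc (es hs0 hs)) σ) ?_
    by_contra hcon
    push Not at hcon
    rw [vl_sgc_neg ((es_neg hs0 hs).2 h)] at hcon
    have h3 : ‖(2 : ℚ_[2])‖ < 1 / 2 := by
      have e2 : (2 : ℚ_[2]) = -(vl (cyc i₀ ^ k) σ - 1) + -(-vl (cyc i₀ ^ k) σ - 1) := by ring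
      rw [e2]
      refine add_lt' ?_ (by rwa [norm_neg])
      rw [norm_neg]
      have := h4 σ
      linarith
    rw [Pool.Agent.R384.norm_two'] at h3
    exact lt_irrefl _ h3
  · intro p _ ι hp σ hσ h
    rw [vl_sgc_pos ((es_one hs0 hs).2 h)]
    exact hin p ι hp σ hσ
  · intro p _ ι hp σ hσ h
    rw [vl_sgc_neg ((es_neg hs0 hs).2 h), hin p ι hp σ hσ]

variable {χ : GK i₀ →* ℤ_[2]ˣ} {s : QB}

lemma neg_ne {x : QB} (h : x ≠ 0) : x ≠ -x := by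
  intro h1
  apply h
  have h2 : (2 : QB) * x = 0 := by linear_combination h1
  exact (mul_eq_zero.1 h2).resolve_left two_ne_zero

lemma ChiG.iff (cd : ChiG χ s) (σ : GK i₀) : ‖vl χ σ - 1‖ < 1 / 2 ↔ σ s = s := by
  constructor
  · intro h
    rcases cd.or σ with h1 | h1
    · exact h1
    · rw [cd.big σ h1] at h
      exact absurd h (lt_irrefl _)
  · exact cd.small σ

/-- the conclusion of the local analysis: either `t` or `t s` is fixed by the group `A` -/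
lemma loc_alt (cd : ChiG χ s) {c : GK i₀ → ℚ_[2]} (hc1 : ∀ σ, ‖c σ‖ ≤ 1) {A : Set (GK i₀)}
    (hA : CobOn χ A c) {σ₀ : GK i₀} (h0 : σ₀ ∈ A) (h2 : σ₀ s = -s) {t : QB}
    (ht : ∀ σ : GK i₀, σ t = t ∨ σ t = -t) (hk : ∀ σ : GK i₀, σ t = t ↔ md c σ = 0) :
    (∀ σ ∈ A, σ t = t) ∨ ∀ σ ∈ A, σ (t * s) = t * s := by
  rcases loc_four hA hc1 h0 (cd.big σ₀ h2) with h3 | h3
  · left
    intro σ hσ
    exact (hk σ).2 (h3 σ hσ)
  · right
    intro σ hσ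
    have h4 := h3 σ hσ
    rw [← hk σ, cd.iff] at h4
    rw [map_mul]
    rcases cd.or σ with h5 | h5
    · rw [h5, h4.2 h5]
    · rcases ht σ with h6 | h6
      · rw [h6, h4.1 h6]
      · rw [h5, h6]
        ring

/-- the integral representative of a non zero continuous function -/
lemma exists_scale {c : GK i₀ → ℚ_[2]} (hc : Continuous c) {σ₁ : GK i₀} (h1 : c σ₁ ≠ 0) :
    ∃ a : ℚ_[2], a ≠ 0 ∧ (∀ σ, ‖a * c σ‖ ≤ 1) ∧ ∃ σ₀, a * c σ₀ = 1 := by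
  have : Nonempty (GK i₀) := ⟨σ₁⟩
  obtain ⟨σ₀, -, h0⟩ := isCompact_univ.exists_isMaxOn (Set.univ_nonempty (α := GK i₀))
    (hc.norm.continuousOn (s := Set.univ))
  have hmax : ∀ σ, ‖c σ‖ ≤ ‖c σ₀‖ := fun σ => h0 (Set.mem_univ σ)
  have h2 : c σ₀ ≠ 0 := by
    intro h
    have h3 := hmax σ₁
    rw [h, norm_zero] at h3
    exact h1 (norm_le_zero_iff.1 h3)
  have h3 : 0 < ‖c σ₀‖ := norm_pos_iff.2 h2
  refine ⟨(c σ₀)⁻¹, inv_ne_zero h2, fun σ => ?_, σ₀, inv_mul_cancel₀ h2⟩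
  rw [norm_mul, norm_inv, inv_mul_le_iff₀ h3, mul_one]
  exact hmax σ

/-- a square root of a squarefree number which is fixed by the inertia group -/
lemma no_dvd (hi : i₀ ^ 2 = -1) {z : GaussianInt} (hz : Squarefree z) {x : QB}
    (hx : x ^ 2 = ev i₀ hi z) {p : ℕ} [Fact p.Prime] (hp : p ≠ 2) {κ : QB →ₐ[ℚ] PadicAlgCl p}
    {ρ : GaussianInt} (hρ : Prime ρ) (hl : ‖κ (ev i₀ hi ρ)‖ < 1)
    (hfix : ∀ σ ∈ (II κ : Set (GK i₀)), σ x = x) : ¬ ρ ∣ z := by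
  have hl' := hl
  rw [iota_ev] at hl'
  refine Pool.Agent.Y715.Gi.not_dvd_of_fix (iota_sq hi κ) hp hρ hl' hz (s := κ x) ?_ ?_
  · rw [← map_pow, hx, iota_ev]
  · intro τ hin hτ
    exact fix_I hfix τ hin hτ

lemma norm_one_mod {D : GaussianInt} (h : lam ^ 5 ∣ D - 1) : D.norm % 8 = 1 := by
  obtain ⟨w, hw⟩ := h
  have e5 : lam ^ 5 = (⟨-4, -4⟩ : GaussianInt) := by decide
  rw [e5] at hw
  have hre := congrArg Zsqrtd.re hw
  have him := congrArg Zsqrtd.im hw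
  simp only [Zsqrtd.re_mul, Zsqrtd.im_mul, Zsqrtd.re_sub, Zsqrtd.im_sub, Zsqrtd.re_one,
    Zsqrtd.im_one] at hre him
  have h1 : D.re = 1 + 4 * (w.im - w.re) := by linarith
  have h2 : D.im = 4 * (-w.re - w.im) := by linarith
  have e : D.norm = 8 * ((w.im - w.re) + 2 * (w.im - w.re) ^ 2 + 2 * (-w.re - w.im) ^ 2) + 1 := by
    rw [Zsqrtd.norm_def, h1, h2]
    ring
  omega

lemma lam_not_dvd {D : GaussianInt} (h : lam ^ 3 ∣ D - 1) : ¬ lam ∣ D := by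
  intro h1
  have h2 : lam ∣ D - 1 := (dvd_pow_self lam (by norm_num)).trans h
  have h3 : lam ∣ 1 := by
    have := dvd_sub h1 h2
    rwa [sub_sub_cancel] at this
  exact prime_lam.not_isUnit (isUnit_of_dvd_one h3)

/-- **The vanishing.** -/
theorem t_VAN : S_ODD → S_KEY → S_CYC → S_VAN := by
  intro hODD hKEY hCYC i₀ hi D hD hD3 hD5 hC s hs0 hs hsD k c hc hodd htwo
  classical
  have cd := chiG (hCYC i₀ hi).1 hs0 hs k
  revert hc hodd htwo cd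
  generalize cyc i₀ ^ k * sgc (es hs0 hs) = χ
  intro hc hodd htwo cd
  obtain ⟨ι⟩ := exists_emb2
  obtain ⟨y, hy⟩ := htwo ι
  refine ⟨y, ?_⟩
  by_contra hcon
  push Not at hcon
  obtain ⟨σ₁, hσ₁⟩ := hcon
  -- the cocycle which vanishes on the decomposition group
  have hc1 : Coc χ (fun σ => 1 * c σ + (vl χ σ - 1) * (-y)) := hc.twist cd.cont 1 (-y)
  set c₁ : GK i₀ → ℚ_[2] := fun σ => 1 * c σ + (vl χ σ - 1) * (-y) with hc₁
  obtain ⟨a, ha, hint0, σ₀, hσ₀⟩ := exists_scale hc1.cont (σ₁ := σ₁) (by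
    intro h
    apply hσ₁
    rw [hc₁] at h
    linear_combination h)
  have hcc : Coc χ (fun σ => a * c₁ σ + (vl χ σ - 1) * 0) := hc1.twist cd.cont a 0
  set c' : GK i₀ → ℚ_[2] := fun σ => a * c₁ σ + (vl χ σ - 1) * 0 with hc'
  have hint : ∀ σ, ‖c' σ‖ ≤ 1 := by
    intro σ
    rw [hc']
    simp only [mul_zero, add_zero]
    exact hint0 σ
  have hone : c' σ₀ = 1 := by
    rw [hc']
    simp only [mul_zero, add_zero]
    exact hσ₀
  have hodd' : ∀ (p : ℕ) [Fact p.Prime] (ι : QB →ₐ[ℚ] PadicAlgCl p), p ≠ 2 →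
      CobOn χ (II ι : Set (GK i₀)) c' := fun p _ κ hp => ((hodd p κ hp).twist 1 (-y)).twist a 0
  have hstr' : ∀ σ ∈ (DD ι : Set (GK i₀)), c' σ = 0 := by
    intro σ hσ
    rw [hc', hc₁]
    simp only [hy σ hσ]
    ring
  have hmd : ∀ σ, c' σ = 0 → md c' σ = 0 := fun σ h => md_zero.2 (by rw [h, norm_zero]; norm_num)
  obtain ⟨d, d', hd3, hd'3, hDd, hd5, hk⟩ := hKEY i₀ hi D hD hD3 (md c') (md_cont hcc)
    (md_mul hcc hint) ι (fun σ hσ => hmd σ (hstr' σ hσ)) (by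
    intro ρ hρ hρD p _ κ hp hl
    refine loc_triv (hodd' p κ hp) (fun σ hσ => cd.ipos p κ hp σ hσ ?_)
    -- `s` is fixed by the inertia group
    obtain ⟨τ, hτ, hin⟩ := hσ
    apply κ.injective
    show κ (σ s) = κ s
    rw [← hτ]
    refine Pool.Agent.Y715.Lc.fix_of_unit (iota_sq hi κ) hp (z := D) ?_ ?_ hin hτ.fix
    · rw [← map_pow, hsD, iota_ev]
    · have hl' := hl
      rw [iota_ev] at hl'
      rwa [← Pool.Agent.Y715.Gi.dvd_iff (iota_sq hi κ) hρ hl'])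
  obtain ⟨t, ht⟩ := IsAlgClosed.exists_pow_nat_eq (ev i₀ hi d) (n := 2) (by norm_num)
  have hor : ∀ σ : GK i₀, σ t = t ∨ σ t = -t := by
    intro σ
    have h : (σ t) ^ 2 = t ^ 2 := by rw [← map_pow, ht, gk_ev]
    exact sq_eq_sq_iff_eq_or_eq_neg.1 h
  have hsqd : Squarefree d := by
    rw [hDd] at hD
    exact hD.of_mul_left
  have hsqd' : Squarefree d' := by
    rw [hDd] at hD
    exact hD.of_mul_right
  have hed : ev i₀ hi d ≠ 0 := ev_ne hi hsqd.ne_zero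
  have hts : (t * s / ev i₀ hi d) ^ 2 = ev i₀ hi d' := by
    rw [div_pow, mul_pow, ht, hsD, hDd, map_mul, div_eq_iff (pow_ne_zero _ hed)]
    ring
  -- the local conditions
  have alt : ∀ ρ : GaussianInt, Prime ρ → ρ ∣ D →
      (¬ ρ ∣ d ∧ ∃ y, ρ ∣ d - y ^ 2) ∨ (¬ ρ ∣ d' ∧ ∃ y, ρ ∣ d' - y ^ 2) := by
    intro ρ hρ hρD
    obtain ⟨p, hp, κ, hl⟩ := exists_emb hi hρ
    have hp2 : p ≠ 2 := odd_of hi κ hρ hl fun h => lam_not_dvd hD3 (h.symm.dvd.trans hρD)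
    obtain ⟨σ₃, h3, h4⟩ : ∃ σ ∈ (II κ : Set (GK i₀)), σ s = -s := by
      by_contra hall
      push Not at hall
      exact no_dvd hi hD hsD hp2 hρ hl (fun σ hσ => (hs σ).resolve_right (hall σ hσ)) hρD
    have hDc : CobOn χ (DD κ : Set (GK i₀)) c' :=
      dec_of_inert hcc (hodd' p κ hp2) h3 (cd.ineg p κ hp2 σ₃ h3 h4) fun τ hτ => conj_mem h3 hτ
    rcases loc_alt cd hint hDc (II_sub h3) h4 hor (hk t ht) with h | h
    · left
      exact ⟨no_dvd hi hsqd ht hp2 hρ hl fun σ hσ => h σ (II_sub hσ),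
        hODD i₀ hi ρ d hρ p κ hp2 hl t ht h⟩
    · right
      have h5 : ∀ σ ∈ (DD κ : Set (GK i₀)), σ (t * s / ev i₀ hi d) = t * s / ev i₀ hi d := by
        intro σ hσ
        rw [map_div₀, h σ hσ, gk_ev]
      exact ⟨no_dvd hi hsqd' hts hp2 hρ hl fun σ hσ => h5 σ (II_sub hσ),
        hODD i₀ hi ρ d' hρ p κ hp2 hl _ hts h5⟩
  have fin : d ≠ 1 := by
    intro h1
    have h2 : md c' σ₀ = 0 := (hk 1 (by rw [h1, map_one, one_pow]) σ₀).1 (map_one σ₀)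
    have h5 : ‖c' σ₀‖ < 1 := md_zero.1 h2
    rw [hone, norm_one] at h5
    exact lt_irrefl _ h5
  rcases hC d d' hd3 hd'3 hDd
    (fun ρ hρ h => ((alt ρ hρ (by rw [hDd]; exact h.mul_right _)).resolve_left
      fun h' => h'.1 h).2)
    (fun ρ hρ h => ((alt ρ hρ (by rw [hDd]; exact h.mul_left _)).resolve_right
      fun h' => h'.1 h).2) with h | h
  · exact fin h
  · have h1 : D = d := by rw [hDd, h, mul_one]
    rcases hD5 with h2 | h2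
    · exact fin (by rw [← h1, h2])
    · have h3 := norm_one_mod (D := D) (by rw [h1]; exact hd5)
      rw [h3] at h2
      exact absurd h2 (by norm_num)

end Pool.Agent.L0h85.GQ

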